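import Mathlib
import Pool.Agent.H2.AG2

namespace Pool.Agent.Results.MP_6b2627_an.Ball

open Metric Pool.Agent.H2.AG1 Pool.Agent.H2.AG2

/-- `b` is admissible in the definition of the Assouad spectrum of `F` at `θ`. -/
def SpecAdm (θ : ℝ) (F : Set E2) (b : ℝ) : Prop :=
  ∃ C > 0, ∀ r : ℝ, 0 < r → r < 1 → ∀ x ∈ F,
    PackLE r (ball x (r ^ θ) ∩ F) (C * (r ^ (θ - 1)) ^ b)

theorem result : ∃ f₀ : ℝ → ℝ, (∃ L, Hol f₀ L) ∧ ∃ ε > 0, ∃ b < 2,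
    ∀ f : ℝ → ℝ, Hol (f - f₀) ε → SpecAdm (1 / 2) (graph f) b := by
  refine ⟨T, ⟨4, T_Hol⟩, 1 / 4, by norm_num, β, β_lt, fun f hf =>
    ⟨1280000 ^ β, by positivity, fun r hr h1 x _ => ?_⟩⟩
  rw [Real.rpow_sub_one hr.ne']
  refine main hf r _ hr ?_ x
  have := Real.rpow_lt_rpow_of_exponent_gt hr h1 (show (1 / 2 : ℝ) < 1 by norm_num)
  rwa [Real.rpow_one] at this

end Pool.Agent.Results.MP_6b2627_an.Ball
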